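import Pool.Agent.K1H35.SH.Stm2
import Pool.Agent.K1H68.SH.Cnt

/-! Common neighbours outside a third neighbourhood (helper39, for helper35, project SQ). -/

set_option autoImplicit false

open Finset

namespace Pool.Agent.K1H39.SQ

open Pool.Agent.K1H35.SH Pool.Agent.K1H68.SH

/-- the final arithmetic -/
theorem qtb_arith (n t L g b R S1 T : ℕ) (hn1 : 1 ≤ n) (hn : n ≤ 2 ^ L) (hL : 1 ≤ L)
    (htn : t ≤ n) (ht : 12 * L ≤ t) (hg : 11 * L ≤ g)
    (hT : T ≤ b + S1) (hb : b * 2 ^ g ≤ n ^ 3 * R)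
    (h1 : 2 ^ t * S1 ≤ n ^ 3 * t * (R + 2 ^ t * b)) : T * n ^ 2 ≤ R := by
  have e6 : n ^ 6 ≤ 2 ^ (6 * L) := by
    calc n ^ 6 ≤ (2 ^ L) ^ 6 := Nat.pow_le_pow_left hn 6
      _ = 2 ^ (6 * L) := by rw [← pow_mul, mul_comm]
  have e9 : n ^ 9 ≤ 2 ^ (9 * L) := by
    calc n ^ 9 ≤ (2 ^ L) ^ 9 := Nat.pow_le_pow_left hn 9
      _ = 2 ^ (9 * L) := by rw [← pow_mul, mul_comm]
  have e5 : n ^ 5 * t ≤ n ^ 6 := by
    calc n ^ 5 * t ≤ n ^ 5 * n := by gcongr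
      _ = n ^ 6 := by ring
  have e2 : n ^ 2 ≤ n ^ 6 := Nat.pow_le_pow_right hn1 (by norm_num)
  have f1 : 2 * n ^ 6 ≤ 2 ^ t := by
    calc 2 * n ^ 6 ≤ 2 * 2 ^ (6 * L) := by gcongr
      _ = 2 ^ (6 * L + 1) := by ring
      _ ≤ 2 ^ t := Nat.pow_le_pow_right (by norm_num) (by omega)
  have f2 : 4 * n ^ 9 ≤ 2 ^ g := by
    calc 4 * n ^ 9 ≤ 4 * 2 ^ (9 * L) := by gcongr
      _ = 2 ^ (9 * L + 2) := by ring
      _ ≤ 2 ^ g := Nat.pow_le_pow_right (by norm_num) (by omega)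
  have f3 : 4 * n ^ 6 * b ≤ R := by
    have h3 : 0 < n ^ 3 := by positivity
    refine Nat.le_of_mul_le_mul_left ?_ h3
    calc n ^ 3 * (4 * n ^ 6 * b) = b * (4 * n ^ 9) := by ring
      _ ≤ b * 2 ^ g := by gcongr
      _ ≤ n ^ 3 * R := hb
  have h0 : 0 < 2 * 2 ^ t := by positivity
  refine Nat.le_of_mul_le_mul_left ?_ h0
  calc 2 * 2 ^ t * (T * n ^ 2) ≤ 2 * 2 ^ t * ((b + S1) * n ^ 2) := by gcongr
    _ = 2 * (2 ^ t * (b * n ^ 2)) + 2 * n ^ 2 * (2 ^ t * S1) := by ring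
    _ ≤ 2 * (2 ^ t * (b * n ^ 2)) + 2 * n ^ 2 * (n ^ 3 * t * (R + 2 ^ t * b)) := by gcongr
    _ = 2 * (2 ^ t * (b * n ^ 2)) + 2 * (n ^ 5 * t) * R + 2 ^ t * (2 * (n ^ 5 * t) * b) := by ring
    _ ≤ 2 * (2 ^ t * (b * n ^ 6)) + 2 * n ^ 6 * R + 2 ^ t * (2 * n ^ 6 * b) := by gcongr
    _ = 2 * n ^ 6 * R + 2 ^ t * (4 * n ^ 6 * b) := by ring
    _ ≤ 2 ^ t * R + 2 ^ t * R := by gcongr
    _ = 2 * 2 ^ t * R := by ring

theorem t_QTB (hCH : S_CH) (hBAD : S_BAD) (hTWO : S_TWO) : S_QTB := by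
  classical
  intro n d t L hnL hL hdn hd htd htL
  obtain ⟨b, hb⟩ : ∃ b, b = cnt n d (fun G => ¬ Good d G) := ⟨_, rfl⟩
  obtain ⟨R, hR⟩ : ∃ R, R = (reg n d).card := ⟨_, rfl⟩
  have hb1 := hBAD n d (by omega) (by omega)
  rw [← hb, ← hR] at hb1
  -- sizes
  have hn1 : 1 ≤ n := by omega
  have htn : t ≤ n := by
    have h2 : d ^ 2 ≤ n * n := by nlinarith
    have h3 : 8192 * (t * n) ≤ n * n := htd.trans h2
    have h4 : t * n ≤ n * n := by omega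
    exact Nat.le_of_mul_le_mul_right h4 (by omega)
  have hg : 11 * L ≤ d / 16 := by
    have h2 : 8192 * (12 * L * (64 * d)) ≤ d ^ 2 := by
      refine le_trans ?_ htd
      gcongr
    have h3 : d * (6291456 * L) ≤ d * d := by
      calc d * (6291456 * L) = 8192 * (12 * L * (64 * d)) := by ring
        _ ≤ d ^ 2 := h2
        _ = d * d := by ring
    have h4 : 6291456 * L ≤ d := Nat.le_of_mul_le_mul_left h3 (by omega)
    omega
  -- the chain for `TS`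
  have c1 : ∀ u v w : Fin n, ∀ j < t, 2 ^ t * cnt n d (fun G => (u ≠ v ∧ u ≠ w ∧ v ≠ w) ∧
      Good d G ∧ (TS G u v w).card = j) ≤ R + 2 ^ t * b := by
    intro u v w j hj
    by_cases hu : u ≠ v ∧ u ≠ w ∧ v ≠ w
    · have h1 := chain (n := n) (d := d) hCH (fun G => (TS G u v w).card) (Good d) (t + t)
        (fun j hj => hTWO n d j u v w (by omega) hd hu.1 hu.2.1 hu.2.2 (by
          have h5 : j + 1 ≤ t + t := hj
          calc 4096 * ((j + 1) * n) ≤ 4096 * ((t + t) * n) := by gcongr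
            _ = 8192 * (t * n) := by ring
            _ ≤ d ^ 2 := htd)) j (by omega)
      rw [← hb, ← hR] at h1
      have h2 : t + t - j = t + (t - j) := by omega
      rw [h2, pow_add] at h1
      have h3 : cnt n d (fun G => (u ≠ v ∧ u ≠ w ∧ v ≠ w) ∧
          Good d G ∧ (TS G u v w).card = j) ≤
          cnt n d (fun G => Good d G ∧ (TS G u v w).card = j) := cnt_mono fun G _ h => h.2
      refine (Nat.mul_le_mul_left _ h3).trans ?_
      have h4 : 1 ≤ 2 ^ (t - j) := Nat.one_le_two_pow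
      have h5 : 0 < 2 ^ (t - j) := h4
      refine Nat.le_of_mul_le_mul_left ?_ h5
      calc 2 ^ (t - j) * (2 ^ t * cnt n d (fun G => Good d G ∧ (TS G u v w).card = j))
          = 2 ^ t * 2 ^ (t - j) * cnt n d (fun G => Good d G ∧ (TS G u v w).card = j) := by ring
        _ ≤ R + 2 ^ t * 2 ^ (t - j) * b := h1
        _ ≤ 2 ^ (t - j) * R + 2 ^ t * 2 ^ (t - j) * b := by
            have : R ≤ 2 ^ (t - j) * R := Nat.le_mul_of_pos_left _ h5
            omega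
        _ = _ := by ring
    · have h3 : cnt n d (fun G => (u ≠ v ∧ u ≠ w ∧ v ≠ w) ∧
          Good d G ∧ (TS G u v w).card = j) = 0 := cnt_zero fun G h => hu h.1
      rw [h3]
      simp
  -- the union bound
  obtain ⟨S1, hS1⟩ : ∃ S1, S1 = ∑ i ∈ (univ : Finset (Fin n × Fin n × Fin n)) ×ˢ range t,
    cnt n d (fun G => (i.1.1 ≠ i.1.2.1 ∧ i.1.1 ≠ i.1.2.2 ∧ i.1.2.1 ≠ i.1.2.2) ∧
      Good d G ∧ (TS G i.1.1 i.1.2.1 i.1.2.2).card = i.2) := ⟨_, rfl⟩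
  rw [← hR]
  refine qtb_arith n t L (d / 16) b R S1 _ hn1 hnL hL htn htL hg ?_ hb1 ?_
  · rw [hb]
    refine (cnt_or (A := fun G => ¬ Good d G) (B := fun G => Good d G ∧ ¬ QT t G) ?_).trans
      (Nat.add_le_add_left ?_ _)
    · intro G _ h
      by_cases hG : Good d G
      · exact Or.inr ⟨hG, h⟩
      · exact Or.inl hG
    · rw [hS1]
      refine cnt_le_sum ((univ : Finset (Fin n × Fin n × Fin n)) ×ˢ range t)
        (fun i G => (i.1.1 ≠ i.1.2.1 ∧ i.1.1 ≠ i.1.2.2 ∧ i.1.2.1 ≠ i.1.2.2) ∧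
          Good d G ∧ (TS G i.1.1 i.1.2.1 i.1.2.2).card = i.2) ?_
      rintro G _ ⟨hG, hQ⟩
      unfold QT at hQ
      push Not at hQ
      obtain ⟨u, v, w, h1, h2, h3, hc⟩ := hQ
      exact ⟨((u, v, w), (TS G u v w).card), by simp [hc], ⟨h1, h2, h3⟩, hG, rfl⟩
  · rw [hS1, mul_sum]
    refine (sum_le_card_nsmul _ _ (R + 2 ^ t * b) ?_).trans (le_of_eq ?_)
    · rintro ⟨⟨u, v, w⟩, j⟩ hi
      rw [mem_product, mem_range] at hi
      exact c1 u v w j hi.2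
    · rw [card_product, card_range, card_univ, Fintype.card_prod, Fintype.card_prod,
        Fintype.card_fin, smul_eq_mul]
      ring

end Pool.Agent.K1H39.SQ
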